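import Mathlib.Order.Lattice
import Mathlib.Order.BoundedOrder.Lattice
import Mathlib.Order.PropInstances
import Mathlib.Order.GaloisConnection.Basic
import Mathlib.Order.ConditionallyCompleteLattice.Basic
import Mathlib.Logic.Relation
import Mathlib.Data.Finite.Prod
import Mathlib.Data.Finite.Sum
import Mathlib.Data.Sum.Order
import Mathlib.Data.Set.Finite.Basic
import Mathlib.Data.Set.Finite.Lattice
import Mathlib.Order.Preorder.Finite
import Mathlib.Tactic.Tauto

/-!
# MP_5c7113_al, Q1: the extended permutohedra `Reg e`, `e` a finite strict ordering, satisfy no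
nontrivial lattice identity

For every lattice identity which fails in some lattice there is a strict ordering `e` on a finite set
such that the identity fails in the lattice `Reg e` of the regular closed subsets of `e`.

The proof: call a map `μ` from the pairs `x ≤ y` of a finite poset to a finite lattice `L` good if it
is antitone in the left variable, satisfies the triangle inequality `μ x z ≤ μ x y ⊔ μ y z`, and if
every inequality `μ x y ≤ u ⊔ v` is witnessed by a chain from `x` to `y` all of whose steps have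
measure at most `u` or at most `v`.  Then `c ↦ {(x, y) | μ x y ≤ c}` is a lattice homomorphism from
`L` to `Reg (<)`.  If sufficiently many elements of `L` are values of good measures, then the same
holds for the lattice obtained from `L` by doubling an interval, and these lattices fail every
nontrivial identity.
-/

set_option autoImplicit false
set_option linter.unusedSectionVars false

universe u

namespace Pool.Agent.Results.MP_5c7113_al.NoLatticeIdentity

/-- Lattice terms in the variables `x₀, x₁, x₂, …`. -/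
inductive LTerm : Type
  | var : ℕ → LTerm
  | join : LTerm → LTerm → LTerm
  | meet : LTerm → LTerm → LTerm

/-- The value of a lattice term under an assignment of elements of `L` to the variables. -/
def LTerm.eval {L : Type u} [Lattice L] (v : ℕ → L) : LTerm → L
  | .var n => v n
  | .join a b => a.eval v ⊔ b.eval v
  | .meet a b => a.eval v ⊓ b.eval v

/-- A strict ordering on `E`: an irreflexive and transitive set of ordered pairs. -/
structure StrictOrdering (E : Type u) where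
  /-- The set of pairs. -/
  rel : Set (E × E)
  irrefl : ∀ x, (x, x) ∉ rel
  trans : ∀ x y z, (x, y) ∈ rel → (y, z) ∈ rel → (x, z) ∈ rel

theorem tlift {α β : Type*} {r : α → α → Prop} {s : β → β → Prop} (f : α → β)
    (h : ∀ a b, r a b → s (f a) (f b)) {x y : α} (hxy : Relation.TransGen r x y) :
    Relation.TransGen s (f x) (f y) := by
  induction hxy with
  | single h1 => exact Relation.TransGen.single (h _ _ h1)
  | tail _ h2 ih => exact Relation.TransGen.tail ih (h _ _ h2)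

section Reg

variable {E : Type u}

/-- The transitive closure of a set of pairs. -/
def cl (a : Set (E × E)) : Set (E × E) :=
  {p | Relation.TransGen (fun x y => (x, y) ∈ a) p.1 p.2}

/-- The interior of `a` in the strict ordering `e`: the complement in `e` of the transitive closure
of the complement of `a` in `e`. It is the largest open subset of `a`, see `interior_isGreatest`. -/
def interior (e : StrictOrdering E) (a : Set (E × E)) : Set (E × E) := e.rel \ cl (e.rel \ a)

/-- The regular closed subsets of `e`: the sets `a` with `a = cl (interior a)`. -/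
def Reg (e : StrictOrdering E) : Type u := {a : Set (E × E) // a = cl (interior e a)}

theorem sub_cl (a : Set (E × E)) : a ⊆ cl a := fun _ hp => Relation.TransGen.single hp

theorem cl_mono {a b : Set (E × E)} (h : a ⊆ b) : cl a ⊆ cl b :=
  fun _ hp => tlift id (fun _ _ hxy => h hxy) hp

theorem cl_idem (a : Set (E × E)) : cl (cl a) = cl a := by
  apply Set.Subset.antisymm
  · rintro ⟨x, y⟩ hp
    have hp2 : Relation.TransGen (fun x y => (x, y) ∈ cl a) x y := hp
    clear hp
    show Relation.TransGen (fun x y => (x, y) ∈ a) x y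
    induction hp2 with
    | single h1 => exact h1
    | tail _ h2 ih => exact Relation.TransGen.trans ih h2
  · exact sub_cl _

theorem cl_trans {a : Set (E × E)} {x y z : E} (h1 : (x, y) ∈ cl a) (h2 : (y, z) ∈ cl a) :
    (x, z) ∈ cl a := Relation.TransGen.trans h1 h2

theorem cl_sub {a b : Set (E × E)} (h : a ⊆ b)
    (hb : ∀ x y z, (x, y) ∈ b → (y, z) ∈ b → (x, z) ∈ b) : cl a ⊆ b := by
  rintro ⟨x, y⟩ hp
  have hp2 : Relation.TransGen (fun x y => (x, y) ∈ a) x y := hp
  clear hp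
  induction hp2 with
  | single h1 => exact h h1
  | tail _ h2 ih => exact hb _ _ _ ih (h h2)

theorem cl_sub_rel (e : StrictOrdering E) {a : Set (E × E)} (h : a ⊆ e.rel) : cl a ⊆ e.rel :=
  cl_sub h e.trans

variable (e : StrictOrdering E)

theorem interior_sub (a : Set (E × E)) : interior e a ⊆ a := by
  intro p hp
  by_contra h
  exact hp.2 (sub_cl _ ⟨hp.1, h⟩)

theorem interior_sub_rel (a : Set (E × E)) : interior e a ⊆ e.rel := fun _ hp => hp.1

theorem interior_mono {a b : Set (E × E)} (h : a ⊆ b) : interior e a ⊆ interior e b := by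
  intro p hp
  have h1 : e.rel \ b ⊆ e.rel \ a := fun q hq => ⟨hq.1, fun h3 => hq.2 (h h3)⟩
  exact ⟨hp.1, fun h2 => hp.2 (cl_mono h1 h2)⟩

theorem rel_diff_interior (a : Set (E × E)) : e.rel \ interior e a = cl (e.rel \ a) := by
  apply Set.Subset.antisymm
  · intro p hp
    by_contra h
    exact hp.2 ⟨hp.1, h⟩
  · intro p hp
    exact ⟨cl_sub_rel e (fun _ hq => hq.1) hp, fun h => h.2 hp⟩

theorem interior_idem (a : Set (E × E)) : interior e (interior e a) = interior e a := by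
  conv_lhs => unfold interior
  rw [show e.rel \ (e.rel \ cl (e.rel \ a)) = cl (e.rel \ a) from rel_diff_interior e a, cl_idem]
  rfl

/-- The interior of `a ⊆ e` is the largest open subset of `a`, where `b ⊆ e` is open if `e \ b` is
closed, that is, transitive. -/
theorem interior_isGreatest {a : Set (E × E)} :
    IsGreatest {b : Set (E × E) | b ⊆ e.rel ∧ b ⊆ a ∧
      ∀ x y z, (x, y) ∈ e.rel \ b → (y, z) ∈ e.rel \ b → (x, z) ∈ e.rel \ b} (interior e a) := by
  constructor
  · refine ⟨interior_sub_rel e a, interior_sub e a, ?_⟩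
    intro x y z h1 h2
    rw [rel_diff_interior] at h1 h2 ⊢
    exact cl_trans h1 h2
  · rintro b ⟨hb1, hb2, hb3⟩ p hp
    refine ⟨hb1 hp, fun h => ?_⟩
    have h2 : cl (e.rel \ a) ⊆ e.rel \ b :=
      cl_sub (fun q hq => ⟨hq.1, fun h3 => hq.2 (hb2 h3)⟩) hb3
    exact (h2 h).2 hp

theorem reg_cl_interior (a : Set (E × E)) :
    cl (interior e a) = cl (interior e (cl (interior e a))) := by
  apply Set.Subset.antisymm
  · apply cl_mono
    conv_lhs => rw [← interior_idem]
    exact interior_mono e (sub_cl _)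
  · have h := cl_mono (interior_sub e (cl (interior e a)))
    rwa [cl_idem] at h

theorem reg_cl_union {a b : Set (E × E)} (ha : a = cl (interior e a))
    (hb : b = cl (interior e b)) : cl (a ∪ b) = cl (interior e (cl (a ∪ b))) := by
  apply Set.Subset.antisymm
  · have h1 : a ∪ b ⊆ cl (interior e (cl (a ∪ b))) := by
      apply Set.union_subset
      · have h2 : cl (interior e a) ⊆ cl (interior e (cl (a ∪ b))) :=
          cl_mono (interior_mono e (Set.subset_union_left.trans (sub_cl _)))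
        rwa [← ha] at h2
      · have h2 : cl (interior e b) ⊆ cl (interior e (cl (a ∪ b))) :=
          cl_mono (interior_mono e (Set.subset_union_right.trans (sub_cl _)))
        rwa [← hb] at h2
    have h3 := cl_mono h1
    rwa [cl_idem] at h3
  · have h := cl_mono (interior_sub e (cl (a ∪ b)))
    rwa [cl_idem] at h

theorem reg_closed {a : Set (E × E)} (ha : a = cl (interior e a)) : cl a = a := by
  conv_lhs => rw [ha]
  rw [cl_idem, ← ha]

/-- The regular closed sets are ordered by inclusion. -/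
instance : PartialOrder (Reg e) := Subtype.partialOrder _

/-- The lattice of the regular closed subsets of `e`, ordered by inclusion. -/
instance : Lattice (Reg e) where
  sup a b := ⟨cl (a.1 ∪ b.1), reg_cl_union e a.2 b.2⟩
  inf a b := ⟨cl (interior e (a.1 ∩ b.1)), reg_cl_interior e _⟩
  le_sup_left a b := show a.1 ⊆ cl (a.1 ∪ b.1) from Set.subset_union_left.trans (sub_cl _)
  le_sup_right a b := show b.1 ⊆ cl (a.1 ∪ b.1) from Set.subset_union_right.trans (sub_cl _)
  sup_le a b c hac hbc := show cl (a.1 ∪ b.1) ⊆ c.1 by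
    have h := cl_mono (Set.union_subset (show a.1 ⊆ c.1 from hac) (show b.1 ⊆ c.1 from hbc))
    rwa [reg_closed e c.2] at h
  inf_le_left a b := show cl (interior e (a.1 ∩ b.1)) ⊆ a.1 by
    have h := cl_mono ((interior_sub e (a.1 ∩ b.1)).trans Set.inter_subset_left)
    rwa [reg_closed e a.2] at h
  inf_le_right a b := show cl (interior e (a.1 ∩ b.1)) ⊆ b.1 by
    have h := cl_mono ((interior_sub e (a.1 ∩ b.1)).trans Set.inter_subset_right)
    rwa [reg_closed e b.2] at h
  le_inf a b c hab hac := show a.1 ⊆ cl (interior e (b.1 ∩ c.1)) by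
    have h := cl_mono (interior_mono e
      (Set.subset_inter (show a.1 ⊆ b.1 from hab) (show a.1 ⊆ c.1 from hac)))
    rwa [← a.2] at h

end Reg

/-! ### Good measures -/

section Measures

open Relation

/-- Good measures on a poset with values in a lattice. -/
structure Good (L : Type) [Lattice L] [OrderBot L] (E : Type) [PartialOrder E]
    (μ : E → E → L) : Prop where
  refl : ∀ x, μ x x = ⊥
  right : ∀ x y z, x ≤ y → y ≤ z → μ y z ≤ μ x z
  tri : ∀ x y z, x ≤ y → y ≤ z → μ x z ≤ μ x y ⊔ μ y z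
  ref : ∀ x y, x < y → ∀ u v, μ x y ≤ u ⊔ v →
    TransGen (fun s t => s < t ∧ (μ s t ≤ u ∨ μ s t ≤ v)) x y

/-- `g` is a value of a good measure on a finite poset. -/
def Rz (L : Type) [Lattice L] [OrderBot L] (g : L) : Prop :=
  ∃ (E : Type) (_ : PartialOrder E) (_ : Finite E) (μ : E → E → L) (x y : E),
    Good L E μ ∧ x < y ∧ μ x y = g

/-- `g` is a strict value of a good measure on a finite poset. -/
def SRz (L : Type) [Lattice L] [OrderBot L] (g : L) : Prop :=
  ∃ (E : Type) (_ : PartialOrder E) (_ : Finite E) (μ : E → E → L) (x y : E),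
    Good L E μ ∧ x < y ∧ μ x y = g ∧ ∀ w, x < w → w < y → μ w y < g

theorem chain_mem {E : Type} [PartialOrder E] {P : E → E → Prop} {x y : E}
    (h : TransGen (fun s t => s < t ∧ P s t) x y) :
    TransGen (fun s t => x ≤ s ∧ s < t ∧ t ≤ y ∧ P s t) x y := by
  have hlt : ∀ {b}, TransGen (fun s t => s < t ∧ P s t) x b → x < b := by
    intro b hb
    induction hb with
    | single h1 => exact h1.1
    | tail _ h2 ih => exact ih.trans h2.1
  induction h with
  | single h1 => exact TransGen.single ⟨le_refl _, h1.1, le_refl _, h1.2⟩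
  | tail h1 h2 ih =>
    refine TransGen.tail (tlift id ?_ ih) ⟨(hlt h1).le, h2.1, le_refl _, h2.2⟩
    rintro s t ⟨h3, h4, h5, h6⟩
    exact ⟨h3, h4, h5.trans h2.1.le, h6⟩

/-- The two-element chain with the value `⊥`. -/
theorem rz_bot (L : Type) [Lattice L] [OrderBot L] : Rz L ⊥ := by
  refine ⟨Bool, inferInstance, inferInstance, fun _ _ => ⊥, false, true, ?_, by decide, rfl⟩
  refine ⟨fun _ => rfl, fun _ _ _ _ _ => le_refl _, fun _ _ _ _ _ => bot_le, ?_⟩
  intro x y hxy u v _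
  exact TransGen.single ⟨hxy, Or.inl bot_le⟩

theorem good_prod {L : Type} [Lattice L] [OrderBot L] {E F : Type} [PartialOrder E]
    [PartialOrder F] {μ : E → E → L} {ν : F → F → L} (hμ : Good L E μ) (hν : Good L F ν) :
    Good L (E × F) (fun p q => μ p.1 q.1 ⊔ ν p.2 q.2) := by
  refine ⟨?_, ?_, ?_, ?_⟩
  · intro x
    show μ x.1 x.1 ⊔ ν x.2 x.2 = ⊥
    rw [hμ.refl, hν.refl, sup_idem]
  · intro x y z hxy hyz
    exact sup_le_sup (hμ.right _ _ _ hxy.1 hyz.1) (hν.right _ _ _ hxy.2 hyz.2)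
  · intro x y z hxy hyz
    calc μ x.1 z.1 ⊔ ν x.2 z.2 ≤ (μ x.1 y.1 ⊔ μ y.1 z.1) ⊔ (ν x.2 y.2 ⊔ ν y.2 z.2) :=
          sup_le_sup (hμ.tri _ _ _ hxy.1 hyz.1) (hν.tri _ _ _ hxy.2 hyz.2)
      _ = _ := sup_sup_sup_comm _ _ _ _
  · rintro ⟨x, x'⟩ ⟨y, y'⟩ hxy u v h
    have hle := hxy.le
    have h1 : μ x y ≤ u ⊔ v := le_sup_left.trans h
    have h2 : ν x' y' ≤ u ⊔ v := le_sup_right.trans h
    have c1 : x < y → TransGen (fun s t : E × F => s < t ∧
        (μ s.1 t.1 ⊔ ν s.2 t.2 ≤ u ∨ μ s.1 t.1 ⊔ ν s.2 t.2 ≤ v)) (x, x') (y, x') := by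
      intro hlt
      refine tlift (fun t => (t, x')) ?_ (hμ.ref x y hlt u v h1)
      rintro s t ⟨h3, h4⟩
      refine ⟨Prod.mk_lt_mk_of_lt_of_le h3 (le_refl _), ?_⟩
      show μ s t ⊔ ν x' x' ≤ u ∨ μ s t ⊔ ν x' x' ≤ v
      rw [hν.refl, sup_bot_eq]
      exact h4
    have c2 : x' < y' → TransGen (fun s t : E × F => s < t ∧
        (μ s.1 t.1 ⊔ ν s.2 t.2 ≤ u ∨ μ s.1 t.1 ⊔ ν s.2 t.2 ≤ v)) (y, x') (y, y') := by
      intro hlt
      refine tlift (fun t => (y, t)) ?_ (hν.ref x' y' hlt u v h2)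
      rintro s t ⟨h3, h4⟩
      refine ⟨Prod.mk_lt_mk_of_le_of_lt (le_refl _) h3, ?_⟩
      show μ y y ⊔ ν s t ≤ u ∨ μ y y ⊔ ν s t ≤ v
      rw [hμ.refl, bot_sup_eq]
      exact h4
    rcases eq_or_lt_of_le hle.1 with h5 | h5
    · simp only at h5
      subst h5
      rcases eq_or_lt_of_le hle.2 with h6 | h6
      · simp only at h6
        subst h6
        exact absurd hxy (lt_irrefl _)
      · exact c2 h6
    · rcases eq_or_lt_of_le hle.2 with h6 | h6
      · simp only at h6
        subst h6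
        exact c1 h5
      · exact (c1 h5).trans (c2 h6)

theorem rz_sup {L : Type} [Lattice L] [OrderBot L] {g h : L} (hg : Rz L g) (hh : Rz L h) :
    Rz L (g ⊔ h) := by
  obtain ⟨E, _, _, μ, x, y, hμ, hxy, rfl⟩ := hg
  obtain ⟨F, _, _, ν, x', y', hν, hxy', rfl⟩ := hh
  exact ⟨E × F, inferInstance, inferInstance, _, (x, x'), (y, y'), good_prod hμ hν,
    Prod.mk_lt_mk_of_lt_of_le hxy hxy'.le, rfl⟩

/-- Transfer of good measures along a lower adjoint. -/
theorem good_map {L M : Type} [Lattice L] [OrderBot L] [Lattice M] [OrderBot M] {σ : L → M}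
    {π : M → L} (hσ : ∀ c m, σ c ≤ m ↔ c ≤ π m) (hπ : ∀ m n, π (m ⊔ n) = π m ⊔ π n)
    {E : Type} [PartialOrder E] {μ : E → E → L} (hμ : Good L E μ) :
    Good M E (fun x y => σ (μ x y)) := by
  have hmono : ∀ {c d}, c ≤ d → σ c ≤ σ d := by
    intro c d h
    rw [hσ]
    exact h.trans ((hσ d (σ d)).1 (le_refl _))
  have hsup : ∀ c d, σ (c ⊔ d) ≤ σ c ⊔ σ d := by
    intro c d
    rw [hσ, hπ]
    exact sup_le_sup ((hσ _ _).1 (le_refl _)) ((hσ _ _).1 (le_refl _))
  refine ⟨?_, ?_, ?_, ?_⟩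
  · intro x
    show σ (μ x x) = ⊥
    rw [hμ.refl, eq_bot_iff, hσ]
    exact bot_le
  · intro x y z hxy hyz
    exact hmono (hμ.right x y z hxy hyz)
  · intro x y z hxy hyz
    exact (hmono (hμ.tri x y z hxy hyz)).trans (hsup _ _)
  · intro x y hxy u v h
    have h1 : μ x y ≤ π u ⊔ π v := by
      rw [← hπ]
      exact (hσ _ _).1 h
    refine tlift id ?_ (hμ.ref x y hxy _ _ h1)
    rintro s t ⟨h2, h3 | h3⟩
    · exact ⟨h2, Or.inl ((hσ _ _).2 h3)⟩
    · exact ⟨h2, Or.inr ((hσ _ _).2 h3)⟩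

theorem srz_map {L M : Type} [Lattice L] [OrderBot L] [Lattice M] [OrderBot M] {σ : L → M}
    {π : M → L} (hσ : ∀ c m, σ c ≤ m ↔ c ≤ π m) (hπ : ∀ m n, π (m ⊔ n) = π m ⊔ π n)
    (hπσ : ∀ c, π (σ c) = c) {g : L} (hg : SRz L g) : SRz M (σ g) := by
  obtain ⟨E, _, _, μ, x, y, hμ, hxy, rfl, hs⟩ := hg
  refine ⟨E, inferInstance, inferInstance, _, x, y, good_map hσ hπ hμ, hxy, rfl, ?_⟩
  intro w h1 h2
  have h3 := hs w h1 h2
  refine lt_of_le_not_ge ?_ ?_
  · rw [hσ, hπσ]
    exact h3.le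
  · intro h4
    rw [hσ, hπσ] at h4
    exact absurd h3 (not_lt_of_ge h4)

/-- The lattices all of whose elements are determined by the strict values below them. -/
def KK (L : Type) [Lattice L] [OrderBot L] : Prop :=
  ∀ c d : L, ¬ c ≤ d → ∃ g, SRz L g ∧ g ≤ c ∧ ¬ g ≤ d

theorem rz_of_srz {L : Type} [Lattice L] [OrderBot L] {g : L} (h : SRz L g) : Rz L g := by
  obtain ⟨E, h1, h2, μ, x, y, hμ, hxy, hg, _⟩ := h
  exact ⟨E, h1, h2, μ, x, y, hμ, hxy, hg⟩

theorem rz_all {L : Type} [Lattice L] [OrderBot L] [Finite L] (hK : KK L) (a : L) : Rz L a := by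
  obtain ⟨m, hm⟩ := (Set.toFinite {s : L | s ≤ a ∧ Rz L s}).exists_maximal ⟨⊥, bot_le, rz_bot L⟩
  have hma : a ≤ m := by
    by_contra hn
    obtain ⟨g, hg1, hg2, hg3⟩ := hK a m hn
    have h1 : m ⊔ g ∈ {s : L | s ≤ a ∧ Rz L s} :=
      ⟨sup_le hm.prop.1 hg2, rz_sup hm.prop.2 (rz_of_srz hg1)⟩
    have h2 := hm.le_of_ge h1 le_sup_left
    exact hg3 (le_sup_right.trans h2)
  have h3 : m = a := le_antisymm hm.prop.1 hma
  rw [← h3]
  exact hm.prop.2

/-- The disjoint sum of two measures. -/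
def sumM {L : Type} [Lattice L] [OrderBot L] {E F : Type} (μ : E → E → L) (ν : F → F → L) :
    E ⊕ F → E ⊕ F → L
  | .inl x, .inl y => μ x y
  | .inr x, .inr y => ν x y
  | _, _ => ⊥

theorem good_sum {L : Type} [Lattice L] [OrderBot L] {E F : Type} [PartialOrder E]
    [PartialOrder F] {μ : E → E → L} {ν : F → F → L} (hμ : Good L E μ) (hν : Good L F ν) :
    Good L (E ⊕ F) (sumM μ ν) := by
  refine ⟨?_, ?_, ?_, ?_⟩
  · rintro (x | x)
    · exact hμ.refl x
    · exact hν.refl x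
  · rintro (x | x) (y | y) (z | z) hxy hyz
    · exact hμ.right _ _ _ (Sum.inl_le_inl_iff.1 hxy) (Sum.inl_le_inl_iff.1 hyz)
    · exact absurd hyz Sum.not_inl_le_inr
    · exact absurd hxy Sum.not_inl_le_inr
    · exact absurd hxy Sum.not_inl_le_inr
    · exact absurd hxy Sum.not_inr_le_inl
    · exact absurd hxy Sum.not_inr_le_inl
    · exact absurd hyz Sum.not_inr_le_inl
    · exact hν.right _ _ _ (Sum.inr_le_inr_iff.1 hxy) (Sum.inr_le_inr_iff.1 hyz)
  · rintro (x | x) (y | y) (z | z) hxy hyz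
    · exact hμ.tri _ _ _ (Sum.inl_le_inl_iff.1 hxy) (Sum.inl_le_inl_iff.1 hyz)
    · exact absurd hyz Sum.not_inl_le_inr
    · exact absurd hxy Sum.not_inl_le_inr
    · exact absurd hxy Sum.not_inl_le_inr
    · exact absurd hxy Sum.not_inr_le_inl
    · exact absurd hxy Sum.not_inr_le_inl
    · exact absurd hyz Sum.not_inr_le_inl
    · exact hν.tri _ _ _ (Sum.inr_le_inr_iff.1 hxy) (Sum.inr_le_inr_iff.1 hyz)
  · rintro (x | x) (y | y) hxy u v h
    · refine tlift Sum.inl ?_ (hμ.ref x y (Sum.inl_lt_inl_iff.1 hxy) u v h)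
      rintro s t ⟨h1, h2⟩
      exact ⟨Sum.inl_lt_inl_iff.2 h1, h2⟩
    · exact absurd hxy Sum.not_inl_lt_inr
    · exact absurd hxy Sum.not_inr_lt_inl
    · refine tlift Sum.inr ?_ (hν.ref x y (Sum.inr_lt_inr_iff.1 hxy) u v h)
      rintro s t ⟨h1, h2⟩
      exact ⟨Sum.inr_lt_inr_iff.2 h1, h2⟩

/-- Finitely many strict values are strict values of a common measure. -/
theorem common {L : Type} [Lattice L] [OrderBot L] {M : Set L} (hM : M.Finite) :
    (∀ u ∈ M, SRz L u) → ∃ (E : Type) (_ : PartialOrder E) (_ : Finite E) (_ : Nonempty E)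
      (μ : E → E → L), Good L E μ ∧ ∀ u ∈ M, ∃ x y, x < y ∧ μ x y = u ∧ ∀ w, x < w → w < y → μ w y < u := by
  induction M, hM using Set.Finite.induction_on with
  | empty =>
    intro _
    refine ⟨PUnit, inferInstance, inferInstance, inferInstance, fun _ _ => ⊥, ?_, ?_⟩
    · refine ⟨fun _ => rfl, fun _ _ _ _ _ => le_refl _, fun _ _ _ _ _ => bot_le, ?_⟩
      intro x y hxy
      exact absurd hxy (lt_irrefl _)
    · rintro u ⟨⟩
  | insert _ _ ih =>
    intro h
    obtain ⟨E, _, _, _, μ, hμ, hE⟩ := ih (fun u hu => h u (Set.mem_insert_of_mem _ hu))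
    obtain ⟨F, _, _, ν, x, y, hν, hxy, hval, hs⟩ := h _ (Set.mem_insert _ _)
    refine ⟨E ⊕ F, inferInstance, inferInstance, inferInstance, sumM μ ν, good_sum hμ hν, ?_⟩
    rintro u (rfl | hu)
    · refine ⟨Sum.inr x, Sum.inr y, Sum.inr_lt_inr_iff.2 hxy, hval, ?_⟩
      rintro (w | w) h1 h2
      · exact absurd h1 Sum.not_inr_lt_inl
      · exact hs w (Sum.inr_lt_inr_iff.1 h1) (Sum.inr_lt_inr_iff.1 h2)
    · obtain ⟨x', y', hxy', hval', hs'⟩ := hE u hu
      refine ⟨Sum.inl x', Sum.inl y', Sum.inl_lt_inl_iff.2 hxy', hval', ?_⟩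
      rintro (w | w) h1 h2
      · exact hs' w (Sum.inl_lt_inl_iff.1 h1) (Sum.inl_lt_inl_iff.1 h2)
      · exact absurd h1 Sum.not_inl_lt_inr

end Measures

/-! ### Doubling an interval -/

section Doubling

open Relation

variable {L : Type} [Lattice L] [OrderBot L]

/-- The lattice obtained from `L` by doubling the interval of all `c` with `a ≤ c ≤ b`. -/
def DD (a b : L) : Type :=
  {p : L × Prop // (p.2 → a ≤ p.1) ∧ (a ≤ p.1 → ¬ p.1 ≤ b → p.2)}

variable {a b : L}

instance : PartialOrder (DD a b) := Subtype.partialOrder _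

theorem dd_le {p q : DD a b} : p ≤ q ↔ p.1.1 ≤ q.1.1 ∧ (p.1.2 → q.1.2) := Iff.rfl

instance : Lattice (DD a b) where
  sup p q := ⟨(p.1.1 ⊔ q.1.1, p.1.2 ∨ q.1.2 ∨ (a ≤ p.1.1 ⊔ q.1.1 ∧ ¬ p.1.1 ⊔ q.1.1 ≤ b)), by
    refine ⟨?_, fun h1 h2 => Or.inr (Or.inr ⟨h1, h2⟩)⟩
    rintro (h | h | h)
    · exact (p.2.1 h).trans le_sup_left
    · exact (q.2.1 h).trans le_sup_right
    · exact h.1⟩
  inf p q := ⟨(p.1.1 ⊓ q.1.1, p.1.2 ∧ q.1.2), by
    refine ⟨fun h => le_inf (p.2.1 h.1) (q.2.1 h.2), fun h1 h2 => ⟨?_, ?_⟩⟩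
    · exact p.2.2 (h1.trans inf_le_left) (fun h3 => h2 (inf_le_left.trans h3))
    · exact q.2.2 (h1.trans inf_le_right) (fun h3 => h2 (inf_le_right.trans h3))⟩
  le_sup_left p q := dd_le.2 ⟨le_sup_left, fun h => Or.inl h⟩
  le_sup_right p q := dd_le.2 ⟨le_sup_right, fun h => Or.inr (Or.inl h)⟩
  sup_le p q r h1 h2 := by
    rw [dd_le] at *
    refine ⟨sup_le h1.1 h2.1, ?_⟩
    rintro (h | h | h)
    · exact h1.2 h
    · exact h2.2 h
    · exact r.2.2 (h.1.trans (sup_le h1.1 h2.1)) (fun h3 => h.2 ((sup_le h1.1 h2.1).trans h3))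
  inf_le_left p q := dd_le.2 ⟨inf_le_left, fun h => h.1⟩
  inf_le_right p q := dd_le.2 ⟨inf_le_right, fun h => h.2⟩
  le_inf p q r h1 h2 := by
    rw [dd_le] at *
    exact ⟨le_inf h1.1 h2.1, fun h => ⟨h1.2 h, h2.2 h⟩⟩

/-- The least preimage. -/
def sg (a b c : L) : DD a b := ⟨(c, a ≤ c ∧ ¬ c ≤ b), fun h => h.1, fun h1 h2 => ⟨h1, h2⟩⟩

instance : OrderBot (DD a b) where
  bot := sg a b ⊥
  bot_le _ := dd_le.2 ⟨bot_le, fun h => absurd bot_le h.2⟩

instance [Finite L] : Finite (DD a b) := by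
  unfold DD
  infer_instance

theorem dd_sup_fst (p q : DD a b) : (p ⊔ q).1.1 = p.1.1 ⊔ q.1.1 := rfl

theorem dd_sup_snd (p q : DD a b) :
    (p ⊔ q).1.2 ↔ p.1.2 ∨ q.1.2 ∨ (a ≤ p.1.1 ⊔ q.1.1 ∧ ¬ p.1.1 ⊔ q.1.1 ≤ b) := Iff.rfl

theorem dd_inf_fst (p q : DD a b) : (p ⊓ q).1.1 = p.1.1 ⊓ q.1.1 := rfl

theorem dd_inf_snd (p q : DD a b) : (p ⊓ q).1.2 ↔ p.1.2 ∧ q.1.2 := Iff.rfl

theorem sg_le {c : L} {m : DD a b} : sg a b c ≤ m ↔ c ≤ m.1.1 := by
  rw [dd_le]
  refine ⟨fun h => h.1, fun h => ⟨h, ?_⟩⟩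
  rintro ⟨h1, h2⟩
  exact m.2.2 (h1.trans h) (fun h3 => h2 (h.trans h3))

/-- The new element. -/
def nw (a b : L) : DD a b := ⟨(a, True), fun _ => le_refl _, fun _ _ => trivial⟩

theorem nw_le {m : DD a b} : nw a b ≤ m ↔ m.1.2 := by
  rw [dd_le]
  exact ⟨fun h => h.2 trivial, fun h => ⟨m.2.1 h, fun _ => h⟩⟩

/-- The points of the new poset. -/
inductive Car {L E F : Type} [PartialOrder E] [PartialOrder F] (M : Set L) (xs ys : L → E)
    (s0 s1 : F) : Type
  | bot : Car M xs ys s0 s1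
  | top : Car M xs ys s0 s1
  | mid (u : L) (w : E) (q : F) (h : u ∈ M ∧ xs u < w ∧ w ≤ ys u ∧ s0 ≤ q ∧ q < s1) :
      Car M xs ys s0 s1

section CarOrder

variable {E F : Type} [PartialOrder E] [PartialOrder F] {M : Set L} {xs ys : L → E} {s0 s1 : F}

/-- The strict order of the new poset. -/
def Car.lt : Car M xs ys s0 s1 → Car M xs ys s0 s1 → Prop
  | .bot, .bot => False
  | .bot, .mid _ _ _ _ => True
  | .bot, .top => True
  | .mid _ _ _ _, .bot => False
  | .mid u w q _, .mid v w' q' _ => u = v ∧ (w, q) < (w', q')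
  | .mid _ _ _ _, .top => True
  | .top, _ => False

theorem Car.lt_irrefl' (x : Car M xs ys s0 s1) : ¬ x.lt x := by
  rcases x with _ | _ | ⟨u, w, q, h⟩
  · exact id
  · exact id
  · rintro ⟨_, h1⟩
    exact absurd h1 (lt_irrefl _)

theorem Car.lt_trans' {x y z : Car M xs ys s0 s1} (h1 : x.lt y) (h2 : y.lt z) : x.lt z := by
  rcases x with _ | _ | ⟨u, w, q, h⟩ <;> rcases y with _ | _ | ⟨u', w', q', h'⟩ <;>
    rcases z with _ | _ | ⟨u'', w'', q'', h''⟩ <;> first
    | exact h1.elim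
    | exact h2.elim
    | trivial
    | exact ⟨h1.1.trans h2.1, h1.2.trans h2.2⟩

instance : PartialOrder (Car M xs ys s0 s1) where
  le x y := x = y ∨ x.lt y
  lt x y := x.lt y
  le_refl x := Or.inl rfl
  le_trans x y z h1 h2 := by
    rcases h1 with rfl | h1
    · exact h2
    · rcases h2 with rfl | h2
      · exact Or.inr h1
      · exact Or.inr (Car.lt_trans' h1 h2)
  lt_iff_le_not_ge x y := by
    constructor
    · intro h
      refine ⟨Or.inr h, ?_⟩
      rintro (rfl | h2)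
      · exact Car.lt_irrefl' _ h
      · exact Car.lt_irrefl' _ (Car.lt_trans' h h2)
    · rintro ⟨rfl | h, h2⟩
      · exact absurd (Or.inl rfl) h2
      · exact h
  le_antisymm x y h1 h2 := by
    rcases h1 with rfl | h1
    · rfl
    · rcases h2 with rfl | h2
      · rfl
      · exact absurd (Car.lt_trans' h1 h2) (Car.lt_irrefl' _)

theorem Car.lt_def {x y : Car M xs ys s0 s1} : x < y ↔ x.lt y := Iff.rfl

instance [Finite L] [Finite E] [Finite F] : Finite (Car M xs ys s0 s1) := by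
  let f : Car M xs ys s0 s1 → Option (Option (L × E × F)) := fun x =>
    match x with
    | .bot => none
    | .top => some none
    | .mid u w q _ => some (some (u, w, q))
  apply Finite.of_injective f
  rintro (_ | _ | ⟨u, w, q, h⟩) (_ | _ | ⟨u', w', q', h'⟩) hxy
  · rfl
  · cases hxy
  · cases hxy
  · cases hxy
  · rfl
  · cases hxy
  · cases hxy
  · cases hxy
  · cases hxy
    rfl

/-- The new measure. -/
def carM (a b : L) (μ : E → E → L) (ν : F → F → L) :
    Car M xs ys s0 s1 → Car M xs ys s0 s1 → DD a b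
  | .bot, .mid u w q _ => sg a b (μ (xs u) w ⊔ ν s0 q)
  | .bot, .top => nw a b
  | .mid _ w q _, .mid _ w' q' _ => sg a b (μ w w' ⊔ ν q q')
  | .mid _ _ q _, .top => sg a b (ν q s1)
  | _, _ => ⊥

open Classical in
/-- The point with given coordinates. -/
noncomputable def em (M : Set L) (xs ys : L → E) (s0 s1 : F) (u : L) (t : E) (q : F) :
    Car M xs ys s0 s1 :=
  if h : u ∈ M ∧ xs u < t ∧ t ≤ ys u ∧ s0 ≤ q ∧ q < s1 then .mid u t q h
  else if q = s1 then .top else .bot

theorem em_mid {u : L} {t : E} {q : F} (h : u ∈ M ∧ xs u < t ∧ t ≤ ys u ∧ s0 ≤ q ∧ q < s1) :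
    em M xs ys s0 s1 u t q = .mid u t q h := dif_pos h

theorem em_top {u : L} {t : E} : em M xs ys s0 s1 u t s1 = .top := by
  unfold em
  rw [dif_neg, if_pos rfl]
  rintro ⟨_, _, _, _, h⟩
  exact absurd h (lt_irrefl _)

theorem em_bot {u : L} (h : s0 < s1) : em M xs ys s0 s1 u (xs u) s0 = .bot := by
  unfold em
  rw [dif_neg, if_neg h.ne]
  rintro ⟨_, h, _⟩
  exact absurd h (lt_irrefl _)

end CarOrder

theorem car_good {E F : Type} [PartialOrder E] [PartialOrder F] {M : Set L} {xs ys : L → E}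
    {s0 s1 : F} {μ : E → E → L} {ν : F → F → L} (hμ : Good L E μ) (hν : Good L F ν)
    (hF : s0 < s1) (hFa : ν s0 s1 = a) (hxy : ∀ u ∈ M, xs u < ys u)
    (hval : ∀ u ∈ M, μ (xs u) (ys u) = u) (hMb : ∀ u ∈ M, ¬ u ≤ b)
    (hs : ∀ u ∈ M, ∀ w, xs u < w → w ≤ ys u → μ w (ys u) ≤ b)
    (hM : ∀ c, ¬ c ≤ b → ¬ a ≤ c → ∃ u ∈ M, u ≤ c) :
    Good (DD a b) (Car M xs ys s0 s1) (carM a b μ ν) := by
  have hmono : ∀ {c d : L}, c ≤ d → sg a b c ≤ sg a b d := fun h => sg_le.2 h
  -- the first step leaves `b`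
  have hfirst : ∀ u ∈ M, ∀ w, xs u < w → w ≤ ys u → ¬ μ (xs u) w ≤ b := by
    intro u hu w h1 h2 h3
    apply hMb u hu
    rw [← hval u hu]
    exact (hμ.tri _ _ _ h1.le h2).trans (sup_le h3 (hs u hu w h1 h2))
  refine ⟨?_, ?_, ?_, ?_⟩
  · rintro (_ | _ | ⟨u, w, q, h⟩)
    · rfl
    · rfl
    · show sg a b (μ w w ⊔ ν q q) = ⊥
      rw [hμ.refl, hν.refl, sup_idem]
      rfl
  · rintro x y z (rfl | h1) (rfl | h2)
    · exact le_refl _
    · exact le_refl _
    · rcases x with _ | _ | ⟨u, w, q, h⟩ <;> rcases y with _ | _ | ⟨u', w', q', h'⟩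
      all_goals first
        | exact h1.elim
        | skip
      · exact bot_le
      · show sg a b (μ w' w' ⊔ ν q' q') ≤ _
        rw [hμ.refl, hν.refl, sup_idem]
        exact bot_le
      · exact bot_le
      · show sg a b (μ w' w' ⊔ ν q' q') ≤ _
        rw [hμ.refl, hν.refl, sup_idem]
        exact bot_le
    · rcases x with _ | _ | ⟨u, w, q, h⟩ <;> rcases y with _ | _ | ⟨u', w', q', h'⟩ <;>
        rcases z with _ | _ | ⟨u'', w'', q'', h''⟩
      all_goals first
        | exact h1.elim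
        | exact h2.elim
        | skip
      · -- bot mid top
        show sg a b (ν q' s1) ≤ nw a b
        rw [sg_le]
        show ν q' s1 ≤ a
        rw [← hFa]
        exact hν.right _ _ _ h'.2.2.2.1 h'.2.2.2.2.le
      · -- bot mid mid
        obtain ⟨rfl, h3⟩ := h2
        exact hmono (sup_le_sup (hμ.right _ _ _ h'.2.1.le h3.le.1)
          (hν.right _ _ _ h'.2.2.2.1 h3.le.2))
      · -- mid mid top
        obtain ⟨rfl, h3⟩ := h1
        exact hmono (hν.right _ _ _ h3.le.2 h'.2.2.2.2.le)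
      · -- mid mid mid
        obtain ⟨rfl, h3⟩ := h1
        obtain ⟨rfl, h4⟩ := h2
        exact hmono (sup_le_sup (hμ.right _ _ _ h3.le.1 h4.le.1)
          (hν.right _ _ _ h3.le.2 h4.le.2))
  · rintro x y z (rfl | h1) (rfl | h2)
    · exact le_sup_left
    · exact le_sup_right
    · exact le_sup_left
    · rcases x with _ | _ | ⟨u, w, q, h⟩ <;> rcases y with _ | _ | ⟨u', w', q', h'⟩ <;>
        rcases z with _ | _ | ⟨u'', w'', q'', h''⟩
      all_goals first
        | exact h1.elim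
        | exact h2.elim
        | skip
      · -- bot mid top
        show nw a b ≤ sg a b (μ (xs u') w' ⊔ ν s0 q') ⊔ sg a b (ν q' s1)
        rw [nw_le, dd_sup_snd]
        refine Or.inr (Or.inr ⟨?_, ?_⟩)
        · show a ≤ (μ (xs u') w' ⊔ ν s0 q') ⊔ ν q' s1
          rw [sup_assoc]
          conv_lhs => rw [← hFa]
          exact (hν.tri _ _ _ h'.2.2.2.1 h'.2.2.2.2.le).trans le_sup_right
        · intro h3
          exact hfirst u' h'.1 w' h'.2.1 h'.2.2.1
            ((le_sup_left.trans le_sup_left).trans h3)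
      · -- bot mid mid
        obtain ⟨rfl, h3⟩ := h2
        show sg a b _ ≤ sg a b _ ⊔ sg a b _
        rw [sg_le, dd_sup_fst]
        show μ (xs u') w'' ⊔ ν s0 q'' ≤ (μ (xs u') w' ⊔ ν s0 q') ⊔ (μ w' w'' ⊔ ν q' q'')
        rw [sup_sup_sup_comm]
        exact sup_le_sup (hμ.tri _ _ _ h'.2.1.le h3.le.1) (hν.tri _ _ _ h'.2.2.2.1 h3.le.2)
      · -- mid mid top
        obtain ⟨rfl, h3⟩ := h1
        show sg a b _ ≤ sg a b _ ⊔ sg a b _
        rw [sg_le, dd_sup_fst]
        show ν q s1 ≤ (μ w w' ⊔ ν q q') ⊔ ν q' s1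
        exact (hν.tri _ _ _ h3.le.2 h'.2.2.2.2.le).trans (sup_le_sup le_sup_right (le_refl _))
      · -- mid mid mid
        obtain ⟨rfl, h3⟩ := h1
        obtain ⟨rfl, h4⟩ := h2
        show sg a b _ ≤ sg a b _ ⊔ sg a b _
        rw [sg_le, dd_sup_fst]
        show μ w w'' ⊔ ν q q'' ≤ (μ w w' ⊔ ν q q') ⊔ (μ w' w'' ⊔ ν q' q'')
        rw [sup_sup_sup_comm]
        exact sup_le_sup (hμ.tri _ _ _ h3.le.1 h4.le.1) (hν.tri _ _ _ h3.le.2 h4.le.2)
  · intro x y hlt U V hUV
    -- chains in the direction of `E`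
    have chE : ∀ u ∈ M, ∀ w w' q, xs u ≤ w → w < w' → w' ≤ ys u → s0 ≤ q → q < s1 →
        (w = xs u → q = s0) → μ w w' ≤ U.1.1 ⊔ V.1.1 →
        TransGen (fun s t => s < t ∧ (carM a b μ ν s t ≤ U ∨ carM a b μ ν s t ≤ V))
          (em M xs ys s0 s1 u w q) (em M xs ys s0 s1 u w' q) := by
      intro u hu w w' q h1 h2 h3 h4 h5 h6 h7
      refine tlift (fun t => em M xs ys s0 s1 u t q) ?_ (chain_mem (hμ.ref w w' h2 _ _ h7))
      rintro s t ⟨h8, h9, h10, h11⟩
      have ht : u ∈ M ∧ xs u < t ∧ t ≤ ys u ∧ s0 ≤ q ∧ q < s1 :=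
        ⟨hu, (h1.trans h8).trans_lt h9, h10.trans h3, h4, h5⟩
      have key : em M xs ys s0 s1 u s q < em M xs ys s0 s1 u t q ∧
          carM a b μ ν (em M xs ys s0 s1 u s q) (em M xs ys s0 s1 u t q) = sg a b (μ s t) := by
        rcases eq_or_lt_of_le (h1.trans h8) with h12 | h12
        · have h13 : w = xs u := le_antisymm (h8.trans h12.ge) h1
          have h14 := h6 h13
          subst h14
          rw [← h12, em_bot h5, em_mid ht]
          refine ⟨trivial, ?_⟩
          show sg a b (μ (xs u) t ⊔ ν q q) = _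
          rw [hν.refl, sup_bot_eq]
        · have hs' : u ∈ M ∧ xs u < s ∧ s ≤ ys u ∧ s0 ≤ q ∧ q < s1 :=
            ⟨hu, h12, h9.le.trans ht.2.2.1, h4, h5⟩
          rw [em_mid hs', em_mid ht]
          refine ⟨⟨rfl, Prod.mk_lt_mk_of_lt_of_le h9 (le_refl _)⟩, ?_⟩
          show sg a b (μ s t ⊔ ν q q) = _
          rw [hν.refl, sup_bot_eq]
      refine ⟨key.1, ?_⟩
      rw [key.2, sg_le, sg_le]
      exact h11
    -- chains in the direction of `F`
    have chF : ∀ u ∈ M, ∀ w q q', xs u < w → w ≤ ys u → s0 ≤ q → q < q' → q' ≤ s1 →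
        ν q q' ≤ U.1.1 ⊔ V.1.1 →
        TransGen (fun s t => s < t ∧ (carM a b μ ν s t ≤ U ∨ carM a b μ ν s t ≤ V))
          (em M xs ys s0 s1 u w q) (em M xs ys s0 s1 u w q') := by
      intro u hu w q q' h1 h2 h3 h4 h5 h7
      refine tlift (fun t => em M xs ys s0 s1 u w t) ?_ (chain_mem (hν.ref q q' h4 _ _ h7))
      rintro s t ⟨h8, h9, h10, h11⟩
      have hs' : u ∈ M ∧ xs u < w ∧ w ≤ ys u ∧ s0 ≤ s ∧ s < s1 :=
        ⟨hu, h1, h2, h3.trans h8, h9.trans_le (h10.trans h5)⟩
      have key : em M xs ys s0 s1 u w s < em M xs ys s0 s1 u w t ∧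
          carM a b μ ν (em M xs ys s0 s1 u w s) (em M xs ys s0 s1 u w t) = sg a b (ν s t) := by
        rcases eq_or_lt_of_le (h10.trans h5) with h12 | h12
        · rw [h12, em_top, em_mid hs']
          exact ⟨trivial, rfl⟩
        · have ht : u ∈ M ∧ xs u < w ∧ w ≤ ys u ∧ s0 ≤ t ∧ t < s1 :=
            ⟨hu, h1, h2, (h3.trans h8).trans h9.le, h12⟩
          rw [em_mid hs', em_mid ht]
          refine ⟨⟨rfl, Prod.mk_lt_mk_of_le_of_lt (le_refl _) h9⟩, ?_⟩
          show sg a b (μ w w ⊔ ν s t) = _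
          rw [hμ.refl, bot_sup_eq]
      refine ⟨key.1, ?_⟩
      rw [key.2, sg_le, sg_le]
      exact h11
    rcases x with _ | _ | ⟨u, w, q, h⟩ <;> rcases y with _ | _ | ⟨u', w', q', h'⟩
    all_goals first
      | exact hlt.elim
      | skip
    · -- bot top
      have hUV' : nw a b ≤ U ⊔ V := hUV
      by_cases hU : nw a b ≤ U
      · exact TransGen.single ⟨trivial, Or.inl hU⟩
      by_cases hV : nw a b ≤ V
      · exact TransGen.single ⟨trivial, Or.inr hV⟩
      rw [nw_le] at hUV' hU hV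
      rw [dd_sup_snd] at hUV'
      obtain ⟨h1, h2⟩ : a ≤ U.1.1 ⊔ V.1.1 ∧ ¬ U.1.1 ⊔ V.1.1 ≤ b := by tauto
      have h3 : ∃ u ∈ M, u ≤ U.1.1 ∨ u ≤ V.1.1 := by
        by_cases hUb : U.1.1 ≤ b
        · have hVb : ¬ V.1.1 ≤ b := fun h4 => h2 (sup_le hUb h4)
          obtain ⟨u, hu, hu2⟩ := hM _ hVb (fun h5 => hV (V.2.2 h5 hVb))
          exact ⟨u, hu, Or.inr hu2⟩
        · obtain ⟨u, hu, hu2⟩ := hM _ hUb (fun h5 => hU (U.2.2 h5 hUb))
          exact ⟨u, hu, Or.inl hu2⟩
      obtain ⟨u, hu, hu2⟩ := h3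
      have hy : u ∈ M ∧ xs u < ys u ∧ ys u ≤ ys u ∧ s0 ≤ s0 ∧ s0 < s1 :=
        ⟨hu, hxy u hu, le_refl _, le_refl _, hF⟩
      have c1 := chF u hu (ys u) s0 s1 (hxy u hu) (le_refl _) (le_refl _) hF (le_refl _)
        (by rw [hFa]; exact h1)
      rw [em_top, em_mid hy] at c1
      have step : (Car.bot : Car M xs ys s0 s1) < .mid u (ys u) s0 hy := Car.lt_def.2 trivial
      refine TransGen.head ⟨step, ?_⟩ c1
      show sg a b (μ (xs u) (ys u) ⊔ ν s0 s0) ≤ U ∨ sg a b (μ (xs u) (ys u) ⊔ ν s0 s0) ≤ V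
      rw [hν.refl, sup_bot_eq, hval u hu, sg_le, sg_le]
      exact hu2
    · -- bot mid
      have h1 : μ (xs u') w' ⊔ ν s0 q' ≤ U.1.1 ⊔ V.1.1 := sg_le.1 hUV
      have c1 := chE u' h'.1 (xs u') w' s0 (le_refl _) h'.2.1 h'.2.2.1 (le_refl _) hF
        (fun _ => rfl) (le_sup_left.trans h1)
      rw [em_bot hF] at c1
      rcases eq_or_lt_of_le h'.2.2.2.1 with h2 | h2
      · subst h2
        rwa [em_mid h'] at c1
      · have c2 := chF u' h'.1 w' s0 q' h'.2.1 h'.2.2.1 (le_refl _) h2 h'.2.2.2.2.le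
          (le_sup_right.trans h1)
        rw [em_mid h'] at c2
        exact c1.trans c2
    · -- mid top
      have h1 : ν q s1 ≤ U.1.1 ⊔ V.1.1 := sg_le.1 hUV
      have c1 := chF u h.1 w q s1 h.2.1 h.2.2.1 h.2.2.2.1 h.2.2.2.2 (le_refl _) h1
      rwa [em_top, em_mid h] at c1
    · -- mid mid
      obtain ⟨rfl, h3⟩ := hlt
      have h1 : μ w w' ⊔ ν q q' ≤ U.1.1 ⊔ V.1.1 := sg_le.1 hUV
      have hle := h3.le
      have c1 : w < w' → _ := fun h4 => chE u h.1 w w' q h.2.1.le h4 h'.2.2.1 h.2.2.2.1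
        h.2.2.2.2 (fun h5 => absurd h5.symm h.2.1.ne) (le_sup_left.trans h1)
      have c2 : q < q' → _ := fun h4 => chF u h.1 w' q q' h'.2.1 h'.2.2.1 h.2.2.2.1 h4
        h'.2.2.2.2.le (le_sup_right.trans h1)
      rcases eq_or_lt_of_le hle.1 with h5 | h5
      · simp only at h5
        subst h5
        rcases eq_or_lt_of_le hle.2 with h6 | h6
        · simp only at h6
          subst h6
          exact absurd h3 (lt_irrefl _)
        · have c := c2 h6
          rwa [em_mid h, em_mid h'] at c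
      · rcases eq_or_lt_of_le hle.2 with h6 | h6
        · simp only at h6
          subst h6
          have c := c1 h5
          rwa [em_mid h, em_mid h'] at c
        · have c := (c1 h5).trans (c2 h6)
          rwa [em_mid h, em_mid h'] at c

theorem srz_nw [Finite L] (hK : KK L) (hab : a ≤ b) : SRz (DD a b) (nw a b) := by
  let M : Set L := {u | SRz L u ∧ ¬ u ≤ b ∧ ∀ v, v < u → SRz L v → v ≤ b}
  obtain ⟨E, _, _, _, μ, hμ, hE⟩ := common (M := M) (Set.toFinite M) (fun u hu => hu.1)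
  obtain ⟨F, _, _, ν, s0, s1, hν, hF, hFa⟩ := rz_all hK a
  have hE2 : ∀ u, ∃ x y : E, u ∈ M → x < y ∧ μ x y = u ∧
      ∀ w, x < w → w < y → μ w y < u := by
    intro u
    by_cases hu : u ∈ M
    · obtain ⟨x, y, h⟩ := hE u hu
      exact ⟨x, y, fun _ => h⟩
    · obtain ⟨x⟩ := (inferInstance : Nonempty E)
      exact ⟨x, x, fun h => absurd h hu⟩
  choose xs ys hxy using hE2
  refine ⟨Car M xs ys s0 s1, inferInstance, inferInstance, carM a b μ ν, .bot, .top, ?_,
    Car.lt_def.2 trivial, rfl, ?_⟩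
  · refine car_good hμ hν hF hFa (fun u hu => (hxy u hu).1) (fun u hu => (hxy u hu).2.1)
      (fun u hu => hu.2.1) ?_ ?_
    · intro u hu w h1 h2
      rcases eq_or_lt_of_le h2 with rfl | h2
      · rw [hμ.refl]
        exact bot_le
      · by_contra h3
        obtain ⟨g, hg1, hg2, hg3⟩ := hK _ _ h3
        exact hg3 (hu.2.2 g (lt_of_le_of_lt hg2 ((hxy u hu).2.2 w h1 h2)) hg1)
    · intro c hc _
      obtain ⟨g, hg1, hg2, hg3⟩ := hK _ _ hc
      obtain ⟨m, hm⟩ := (Set.toFinite {v : L | SRz L v ∧ v ≤ c ∧ ¬ v ≤ b}).exists_minimal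
        ⟨g, hg1, hg2, hg3⟩
      refine ⟨m, ⟨hm.prop.1, hm.prop.2.2, ?_⟩, hm.prop.2.1⟩
      intro v hv1 hv2
      by_contra hv3
      have h4 := hm.le_of_le ⟨hv2, hv1.le.trans hm.prop.2.1, hv3⟩ hv1.le
      exact absurd hv1 (not_lt_of_ge h4)
  · rintro (_ | _ | ⟨u, w, q, h⟩) h1 h2
    · exact h1.elim
    · exact h2.elim
    · show sg a b (ν q s1) < nw a b
      refine lt_of_le_of_ne ?_ ?_
      · rw [sg_le]
        show ν q s1 ≤ a
        rw [← hFa]
        exact hν.right _ _ _ h.2.2.2.1 h.2.2.2.2.le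
      · intro h3
        have h4 : (sg a b (ν q s1)).1.2 := by
          rw [h3]
          trivial
        have h5 : (sg a b (ν q s1)).1.1 = a := by
          rw [h3]
          rfl
        have h6 : ν q s1 = a := h5
        apply h4.2
        rw [h6]
        exact hab

theorem kk_dd [Finite L] (hK : KK L) (hab : a ≤ b) : KK (DD a b) := by
  intro c d hcd
  by_cases h : c.1.1 ≤ d.1.1
  · refine ⟨nw a b, srz_nw hK hab, ?_, ?_⟩
    · rw [nw_le]
      by_contra h2
      exact hcd (dd_le.2 ⟨h, fun h3 => absurd h3 h2⟩)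
    · rw [nw_le]
      intro h2
      exact hcd (dd_le.2 ⟨h, fun _ => h2⟩)
  · obtain ⟨g, hg1, hg2, hg3⟩ := hK _ _ h
    refine ⟨sg a b g, ?_, sg_le.2 hg2, fun h4 => hg3 (sg_le.1 h4)⟩
    exact srz_map (π := fun m : DD a b => m.1.1) (fun c m => sg_le) (fun _ _ => rfl)
      (fun _ => rfl) hg1

end Doubling

/-! ### Products and the two-element lattice -/

section Base

open Relation

theorem kk_prod {L M : Type} [Lattice L] [OrderBot L] [Lattice M] [OrderBot M] (hL : KK L)
    (hM : KK M) : KK (L × M) := by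
  intro c d hcd
  by_cases h : c.1 ≤ d.1
  · have h2 : ¬ c.2 ≤ d.2 := fun h2 => hcd ⟨h, h2⟩
    obtain ⟨g, hg1, hg2, hg3⟩ := hM _ _ h2
    refine ⟨(⊥, g), ?_, ⟨bot_le, hg2⟩, fun h4 => hg3 h4.2⟩
    exact srz_map (σ := fun g : M => ((⊥, g) : L × M)) (π := Prod.snd)
      (fun c m => ⟨fun h => (Prod.le_def.1 h).2, fun h => Prod.le_def.2 ⟨bot_le, h⟩⟩) (fun _ _ => rfl) (fun _ => rfl) hg1
  · obtain ⟨g, hg1, hg2, hg3⟩ := hL _ _ h
    refine ⟨(g, ⊥), ?_, ⟨hg2, bot_le⟩, fun h4 => hg3 h4.1⟩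
    exact srz_map (σ := fun g : L => ((g, ⊥) : L × M)) (π := Prod.fst)
      (fun c m => ⟨fun h => (Prod.le_def.1 h).1, fun h => Prod.le_def.2 ⟨h, bot_le⟩⟩) (fun _ _ => rfl) (fun _ => rfl) hg1

theorem srz_bool : SRz Bool true := by
  refine ⟨Bool, inferInstance, inferInstance, fun x y => !(x == y), false, true, ?_, by decide,
    rfl, ?_⟩
  · refine ⟨by decide, by decide, by decide, ?_⟩
    intro x y hxy u v huv
    refine TransGen.single ⟨hxy, ?_⟩
    revert x y u v
    decide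
  · decide

theorem kk_bool : KK Bool := by
  intro c d hcd
  refine ⟨true, srz_bool, ?_, ?_⟩
  · revert c d
    decide
  · revert c d
    decide

end Base

/-! ### The identities which hold in all these lattices hold in all lattices -/

section Words

theorem eval_map {L M : Type*} [Lattice L] [Lattice M] (π : L → M)
    (h1 : ∀ x y, π (x ⊔ y) = π x ⊔ π y) (h2 : ∀ x y, π (x ⊓ y) = π x ⊓ π y) (v : ℕ → L)
    (t : LTerm) : π (t.eval v) = t.eval (fun n => π (v n)) := by
  induction t with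
  | var n => rfl
  | join a b iha ihb =>
    show π (a.eval v ⊔ b.eval v) = _
    rw [h1, iha, ihb]
    rfl
  | meet a b iha ihb =>
    show π (a.eval v ⊓ b.eval v) = _
    rw [h2, iha, ihb]
    rfl

/-- The inequalities of `A` fail simultaneously in one of our lattices. -/
def Fail (A : Set (LTerm × LTerm)) : Prop :=
  ∃ (L : Type) (_ : Lattice L) (_ : OrderBot L) (_ : Finite L) (v : ℕ → L), KK L ∧
    ∀ p ∈ A, ¬ p.1.eval v ≤ p.2.eval v

theorem fail_union {A B : Set (LTerm × LTerm)} (hA : Fail A) (hB : Fail B) : Fail (A ∪ B) := by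
  obtain ⟨L, _, _, _, v, hL, hv⟩ := hA
  obtain ⟨M, _, _, _, w, hM, hw⟩ := hB
  refine ⟨L × M, inferInstance, inferInstance, inferInstance, fun n => (v n, w n),
    kk_prod hL hM, ?_⟩
  have e1 : ∀ t : LTerm, (t.eval (fun n => (v n, w n))).1 = t.eval v := fun t =>
    eval_map (Prod.fst : L × M → L) (fun _ _ => rfl) (fun _ _ => rfl) _ t
  have e2 : ∀ t : LTerm, (t.eval (fun n => (v n, w n))).2 = t.eval w := fun t =>
    eval_map (Prod.snd : L × M → M) (fun _ _ => rfl) (fun _ _ => rfl) _ t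
  rintro p (hp | hp) h
  · apply hv p hp
    rw [← e1, ← e1]
    exact h.1
  · apply hw p hp
    rw [← e2, ← e2]
    exact h.2

theorem fail_mono {A B : Set (LTerm × LTerm)} (h : A ⊆ B) (hB : Fail B) : Fail A := by
  obtain ⟨L, i1, i2, i3, v, hL, hv⟩ := hB
  exact ⟨L, i1, i2, i3, v, hL, fun p hp => hv p (h hp)⟩

theorem fail_pair {p q : LTerm × LTerm} (hp : Fail {p}) (hq : Fail {q}) : Fail {p, q} := by
  have h := fail_union hp hq
  rwa [Set.singleton_union] at h

/-- A term evaluated in the doubled lattice. -/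
theorem dd_eval {L : Type} [Lattice L] [OrderBot L] {a b : L} (v : ℕ → DD a b) (t : LTerm) :
    (t.eval v).1.1 = t.eval (fun n => (v n).1.1) :=
  eval_map (fun m : DD a b => m.1.1) (fun _ _ => rfl) (fun _ _ => rfl) v t

theorem fail_var_join {i : ℕ} {t1 t2 : LTerm} (h1 : Fail {(.var i, t1)})
    (h2 : Fail {(.var i, t2)}) : Fail {(.var i, .join t1 t2)} := by
  obtain ⟨L, _, _, _, v, hL, hv⟩ := fail_pair h1 h2
  have g1 : ¬ v i ≤ t1.eval v := hv _ (Or.inl rfl)
  have g2 : ¬ v i ≤ t2.eval v := hv _ (Or.inr rfl)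
  by_cases h : v i ≤ t1.eval v ⊔ t2.eval v
  · set a := v i with ha
    set b := t1.eval v ⊔ t2.eval v with hb
    let w : ℕ → DD a b := fun n => if n = i then nw a b else sg a b (v n)
    have hw : (fun n => (w n).1.1) = v := by
      funext n
      by_cases hn : n = i
      · subst hn
        simp only [w, if_pos rfl]
        rfl
      · simp only [w, if_neg hn]
        rfl
    refine ⟨DD a b, inferInstance, inferInstance, inferInstance, w, kk_dd hL h, ?_⟩
    rintro p rfl h3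
    have h4 : (w i).1.2 := by
      simp only [w, if_pos rfl]
      trivial
    have h5 := (dd_le.1 h3).2 h4
    have e1 : (t1.eval w).1.1 = t1.eval v := by rw [dd_eval, hw]
    have e2 : (t2.eval w).1.1 = t2.eval v := by rw [dd_eval, hw]
    rcases h5 with h6 | h6 | h6
    · exact g1 (by rw [← e1]; exact (t1.eval w).2.1 h6)
    · exact g2 (by rw [← e2]; exact (t2.eval w).2.1 h6)
    · apply h6.2
      show (t1.eval w).1.1 ⊔ (t2.eval w).1.1 ≤ b
      rw [e1, e2]
  · refine ⟨L, inferInstance, inferInstance, inferInstance, v, hL, ?_⟩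
    rintro p rfl
    exact h

theorem fail_meet_var {j : ℕ} {s1 s2 : LTerm} (h1 : Fail {(s1, .var j)})
    (h2 : Fail {(s2, .var j)}) : Fail {(.meet s1 s2, .var j)} := by
  obtain ⟨L, _, _, _, v, hL, hv⟩ := fail_pair h1 h2
  have g1 : ¬ s1.eval v ≤ v j := hv _ (Or.inl rfl)
  have g2 : ¬ s2.eval v ≤ v j := hv _ (Or.inr rfl)
  by_cases h : s1.eval v ⊓ s2.eval v ≤ v j
  · set a := s1.eval v ⊓ s2.eval v with ha
    set b := v j with hb
    let w : ℕ → DD a b := fun n => sg a b (v n)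
    have hw : (fun n => (w n).1.1) = v := rfl
    refine ⟨DD a b, inferInstance, inferInstance, inferInstance, w, kk_dd hL h, ?_⟩
    rintro p rfl h3
    have e1 : (s1.eval w).1.1 = s1.eval v := by rw [dd_eval, hw]
    have e2 : (s2.eval w).1.1 = s2.eval v := by rw [dd_eval, hw]
    have h4 : (s1.eval w).1.2 := (s1.eval w).2.2 (by rw [e1]; exact inf_le_left)
      (by rw [e1]; exact g1)
    have h5 : (s2.eval w).1.2 := (s2.eval w).2.2 (by rw [e2]; exact inf_le_right)
      (by rw [e2]; exact g2)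
    have h6 : (w j).1.2 := (dd_le.1 h3).2 ⟨h4, h5⟩
    exact h6.2 (le_refl _)
  · refine ⟨L, inferInstance, inferInstance, inferInstance, v, hL, ?_⟩
    rintro p rfl
    exact h

theorem fail_meet_join {s1 s2 t1 t2 : LTerm} (h1 : Fail {(s1, .join t1 t2)})
    (h2 : Fail {(s2, .join t1 t2)}) (h3 : Fail {(.meet s1 s2, t1)})
    (h4 : Fail {(.meet s1 s2, t2)}) : Fail {(.meet s1 s2, .join t1 t2)} := by
  obtain ⟨L, _, _, _, v, hL, hv⟩ := fail_union (fail_pair h1 h2) (fail_pair h3 h4)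
  have g1 : ¬ s1.eval v ≤ t1.eval v ⊔ t2.eval v := hv _ (Or.inl (Or.inl rfl))
  have g2 : ¬ s2.eval v ≤ t1.eval v ⊔ t2.eval v := hv _ (Or.inl (Or.inr rfl))
  have g3 : ¬ s1.eval v ⊓ s2.eval v ≤ t1.eval v := hv _ (Or.inr (Or.inl rfl))
  have g4 : ¬ s1.eval v ⊓ s2.eval v ≤ t2.eval v := hv _ (Or.inr (Or.inr rfl))
  by_cases h : s1.eval v ⊓ s2.eval v ≤ t1.eval v ⊔ t2.eval v
  · set a := s1.eval v ⊓ s2.eval v with ha
    set b := t1.eval v ⊔ t2.eval v with hb
    let w : ℕ → DD a b := fun n => sg a b (v n)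
    have hw : (fun n => (w n).1.1) = v := rfl
    refine ⟨DD a b, inferInstance, inferInstance, inferInstance, w, kk_dd hL h, ?_⟩
    rintro p rfl h3
    have e1 : (s1.eval w).1.1 = s1.eval v := by rw [dd_eval, hw]
    have e2 : (s2.eval w).1.1 = s2.eval v := by rw [dd_eval, hw]
    have e3 : (t1.eval w).1.1 = t1.eval v := by rw [dd_eval, hw]
    have e4 : (t2.eval w).1.1 = t2.eval v := by rw [dd_eval, hw]
    have h4 : (s1.eval w).1.2 := (s1.eval w).2.2 (by rw [e1]; exact inf_le_left)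
      (by rw [e1]; exact g1)
    have h5 : (s2.eval w).1.2 := (s2.eval w).2.2 (by rw [e2]; exact inf_le_right)
      (by rw [e2]; exact g2)
    rcases (dd_le.1 h3).2 ⟨h4, h5⟩ with h6 | h6 | h6
    · exact g3 (by rw [← e3]; exact (t1.eval w).2.1 h6)
    · exact g4 (by rw [← e4]; exact (t2.eval w).2.1 h6)
    · apply h6.2
      show (t1.eval w).1.1 ⊔ (t2.eval w).1.1 ≤ b
      rw [e3, e4]
  · refine ⟨L, inferInstance, inferInstance, inferInstance, v, hL, ?_⟩
    rintro p rfl
    exact h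

/-- Every inequality between lattice terms holds in all lattices or fails in one of ours. -/
theorem holds_or_fail : ∀ s t : LTerm,
    (∀ {M : Type u} [Lattice M] (v : ℕ → M), s.eval v ≤ t.eval v) ∨ Fail {(s, t)}
  | .join s1 s2, t => by
    rcases holds_or_fail s1 t with h1 | h1
    · rcases holds_or_fail s2 t with h2 | h2
      · exact Or.inl (fun v => sup_le (h1 v) (h2 v))
      · right
        obtain ⟨L, i1, i2, i3, v, hL, hv⟩ := h2
        refine ⟨L, i1, i2, i3, v, hL, ?_⟩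
        rintro p rfl h3
        exact hv _ rfl (le_sup_right.trans h3)
    · right
      obtain ⟨L, i1, i2, i3, v, hL, hv⟩ := h1
      refine ⟨L, i1, i2, i3, v, hL, ?_⟩
      rintro p rfl h3
      exact hv _ rfl (le_sup_left.trans h3)
  | .var i, .meet t1 t2 => by
    rcases holds_or_fail (.var i) t1 with h1 | h1
    · rcases holds_or_fail (.var i) t2 with h2 | h2
      · exact Or.inl (fun v => le_inf (h1 v) (h2 v))
      · right
        obtain ⟨L, i1, i2, i3, v, hL, hv⟩ := h2
        refine ⟨L, i1, i2, i3, v, hL, ?_⟩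
        rintro p rfl h3
        exact hv _ rfl (h3.trans inf_le_right)
    · right
      obtain ⟨L, i1, i2, i3, v, hL, hv⟩ := h1
      refine ⟨L, i1, i2, i3, v, hL, ?_⟩
      rintro p rfl h3
      exact hv _ rfl (h3.trans inf_le_left)
  | .meet s1 s2, .meet t1 t2 => by
    rcases holds_or_fail (.meet s1 s2) t1 with h1 | h1
    · rcases holds_or_fail (.meet s1 s2) t2 with h2 | h2
      · exact Or.inl (fun v => le_inf (h1 v) (h2 v))
      · right
        obtain ⟨L, i1, i2, i3, v, hL, hv⟩ := h2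
        refine ⟨L, i1, i2, i3, v, hL, ?_⟩
        rintro p rfl h3
        exact hv _ rfl (h3.trans inf_le_right)
    · right
      obtain ⟨L, i1, i2, i3, v, hL, hv⟩ := h1
      refine ⟨L, i1, i2, i3, v, hL, ?_⟩
      rintro p rfl h3
      exact hv _ rfl (h3.trans inf_le_left)
  | .var i, .var j => by
    by_cases hij : i = j
    · subst hij
      exact Or.inl (fun v => le_refl _)
    · right
      refine ⟨Bool, inferInstance, inferInstance, inferInstance, fun n => decide (n = i),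
        kk_bool, ?_⟩
      rintro p rfl
      show ¬ (decide (i = i)) ≤ decide (j = i)
      rw [decide_eq_true rfl, decide_eq_false (fun h => hij h.symm)]
      decide
  | .var i, .join t1 t2 => by
    rcases holds_or_fail (.var i) t1 with h1 | h1
    · exact Or.inl (fun v => (h1 v).trans le_sup_left)
    · rcases holds_or_fail (.var i) t2 with h2 | h2
      · exact Or.inl (fun v => (h2 v).trans le_sup_right)
      · exact Or.inr (fail_var_join h1 h2)
  | .meet s1 s2, .var j => by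
    rcases holds_or_fail s1 (.var j) with h1 | h1
    · exact Or.inl (fun v => inf_le_left.trans (h1 v))
    · rcases holds_or_fail s2 (.var j) with h2 | h2
      · exact Or.inl (fun v => inf_le_right.trans (h2 v))
      · exact Or.inr (fail_meet_var h1 h2)
  | .meet s1 s2, .join t1 t2 => by
    rcases holds_or_fail s1 (.join t1 t2) with h1 | h1
    · exact Or.inl (fun v => inf_le_left.trans (h1 v))
    · rcases holds_or_fail s2 (.join t1 t2) with h2 | h2
      · exact Or.inl (fun v => inf_le_right.trans (h2 v))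
      · rcases holds_or_fail (.meet s1 s2) t1 with h3 | h3
        · exact Or.inl (fun v => (h3 v).trans le_sup_left)
        · rcases holds_or_fail (.meet s1 s2) t2 with h4 | h4
          · exact Or.inl (fun v => (h4 v).trans le_sup_right)
          · exact Or.inr (fail_meet_join h1 h2 h3 h4)
termination_by s t => sizeOf s + sizeOf t

end Words

/-! ### From measures to regular closed sets -/

section Final

open Relation

/-- The strict ordering of a poset. -/
def ltRel (E : Type) [PartialOrder E] : StrictOrdering E where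
  rel := {p | p.1 < p.2}
  irrefl x h := lt_irrefl x h
  trans _ _ _ h1 h2 := lt_trans h1 h2

variable {L : Type} [Lattice L] [OrderBot L] {E : Type} [PartialOrder E] {μ : E → E → L}

/-- The pairs of measure at most `c`. -/
def lev (μ : E → E → L) (c : L) : Set (E × E) := {p | p.1 < p.2 ∧ μ p.1 p.2 ≤ c}

theorem cl_lev (hμ : Good L E μ) (c : L) : cl (lev μ c) = lev μ c := by
  apply Set.Subset.antisymm _ (sub_cl _)
  apply cl_sub (Set.Subset.refl _)
  intro x y z h1 h2
  exact ⟨h1.1.trans h2.1, (hμ.tri x y z h1.1.le h2.1.le).trans (sup_le h1.2 h2.2)⟩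

theorem interior_lev (hμ : Good L E μ) (c : L) : interior (ltRel E) (lev μ c) = lev μ c := by
  apply Set.Subset.antisymm (interior_sub _ _)
  intro p hp
  refine ⟨hp.1, fun h => ?_⟩
  have h2 : cl ((ltRel E).rel \ lev μ c) ⊆ (ltRel E).rel \ lev μ c := by
    apply cl_sub (Set.Subset.refl _)
    rintro x y z ⟨h1, h2⟩ ⟨h3, h4⟩
    refine ⟨lt_trans h1 h3, fun h5 => h4 ⟨h3, ?_⟩⟩
    exact (hμ.right x y z (le_of_lt h1) (le_of_lt h3)).trans h5.2
  exact (h2 h).2 hp

/-- The homomorphism given by a good measure. -/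
def hom (hμ : Good L E μ) (c : L) : Reg (ltRel E) :=
  ⟨lev μ c, by rw [interior_lev hμ, cl_lev hμ]⟩

theorem hom_sup (hμ : Good L E μ) (c d : L) : hom hμ (c ⊔ d) = hom hμ c ⊔ hom hμ d := by
  apply Subtype.ext
  show lev μ (c ⊔ d) = cl (lev μ c ∪ lev μ d)
  apply Set.Subset.antisymm
  · rintro ⟨x, y⟩ ⟨h1, h2⟩
    refine tlift id ?_ (hμ.ref x y h1 c d h2)
    rintro s t ⟨h3, h4 | h4⟩
    · exact Or.inl ⟨h3, h4⟩
    · exact Or.inr ⟨h3, h4⟩
  · rw [← cl_lev hμ (c ⊔ d)]
    apply cl_mono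
    rintro p (h | h)
    · exact ⟨h.1, h.2.trans le_sup_left⟩
    · exact ⟨h.1, h.2.trans le_sup_right⟩

theorem hom_inf (hμ : Good L E μ) (c d : L) : hom hμ (c ⊓ d) = hom hμ c ⊓ hom hμ d := by
  apply Subtype.ext
  show lev μ (c ⊓ d) = cl (interior (ltRel E) (lev μ c ∩ lev μ d))
  have h : lev μ c ∩ lev μ d = lev μ (c ⊓ d) := by
    ext p
    constructor
    · rintro ⟨h1, h2⟩
      exact ⟨h1.1, le_inf h1.2 h2.2⟩
    · rintro ⟨h1, h2⟩
      exact ⟨⟨h1, h2.trans inf_le_left⟩, ⟨h1, h2.trans inf_le_right⟩⟩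
  rw [h, interior_lev hμ, cl_lev hμ]

theorem reg_of_fail {s t : LTerm} (h : Fail {(s, t)}) :
    ∃ (E : Type) (_ : Finite E) (e : StrictOrdering E) (v : ℕ → Reg e),
      ¬ s.eval v ≤ t.eval v := by
  obtain ⟨L, _, _, _, v, hL, hv⟩ := h
  obtain ⟨g, ⟨E, _, hfin, μ, x, y, hμ, hxy, hval, _⟩, hg2, hg3⟩ := hL _ _ (hv _ rfl)
  refine ⟨E, hfin, ltRel E, fun n => hom hμ (v n), ?_⟩
  rw [← eval_map (hom hμ) (hom_sup hμ) (hom_inf hμ), ← eval_map (hom hμ) (hom_sup hμ) (hom_inf hμ)]
  intro h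
  have h2 : (x, y) ∈ lev μ (s.eval v) := ⟨hxy, by rw [hval]; exact hg2⟩
  have h3 : (x, y) ∈ lev μ (t.eval v) := h h2
  apply hg3
  rw [← hval]
  exact h3.2

end Final

/-- **MP_5c7113_al, Q1 has a negative answer.** Every lattice identity `s = t` which fails in some
lattice fails in the lattice `Reg e` of the regular closed subsets of some strict ordering `e` on a
finite set. -/
theorem result (s t : LTerm) (hst : ∃ (L : Type u) (_ : Lattice L) (v : ℕ → L),
    s.eval v ≠ t.eval v) :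
    ∃ (E : Type) (_ : Finite E) (e : StrictOrdering E) (v : ℕ → Reg e),
      s.eval v ≠ t.eval v := by
  obtain ⟨L, _, v, hne⟩ := hst
  rcases holds_or_fail.{u} s t with h1 | h1
  · rcases holds_or_fail.{u} t s with h2 | h2
    · exact absurd (le_antisymm (h1 v) (h2 v)) hne
    · obtain ⟨E, i1, e, w, hw⟩ := reg_of_fail h2
      exact ⟨E, i1, e, w, fun h => hw h.ge⟩
  · obtain ⟨E, i1, e, w, hw⟩ := reg_of_fail h1
    exact ⟨E, i1, e, w, fun h => hw h.le⟩


end Pool.Agent.Results.MP_5c7113_al.NoLatticeIdentity
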